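import Pool.Agent.H34.N6V.Targets
import Pool.Agent.H69.N6E.NRT

set_option autoImplicit false

open Polynomial NumberField IsDedekindDomain Pool.Agent.H32.QC Pool.Agent.H34.N6
  Pool.Agent.H13.DEV Pool.Agent.H34.N6V

namespace Pool.Agent.H69.N6V

theorem pf_ALF (hNRT : T_NRT) (hHOM : T_HOM) (hBEL : T_BEL) : T_ALF := by
  intro k ι _ _ _ hne L _ _ _ P E D e R S S' N p G Gx ε εx G' hH hGen hSS hp hx hO K _ _ _ θ
    hadj hθ
  have hPθ : aeval θ (∏ j, P j) ≠ 0 := by
    rw [map_prod, Finset.prod_ne_zero_iff]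
    intro j _ h0
    have h1 : P j = minpoly k θ :=
      minpoly.eq_of_irreducible_of_monic (hH.fam.irr j) h0 (hH.fam.mon j)
    have h2 : P j ∣ G' := by
      rw [h1]
      exact minpoly.dvd k θ hθ
    have h3 : aeval (e j) (P j) = 0 := by
      rw [← (hGen j).mp]
      exact minpoly.aeval k (e j)
    obtain ⟨Q, hQ⟩ := h2
    apply (hO j).ne
    rw [hQ, map_mul, h3, zero_mul]
  refine ⟨hPθ, fun w hw => ?_⟩
  obtain ⟨j0⟩ := hne
  by_cases hS : bel (k := k) w ∈ S
  · obtain ⟨-, -, -, -, hnear⟩ := hH.loc _ hS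
    obtain ⟨e1, e2⟩ := hx _ hS
    refine hnear G' (hO j0).mon (hO j0).deg ?_ K w rfl θ hadj hθ
    intro i
    have h := (hO j0).close _ (hSS hS) i
    rw [e1] at h
    exact lt_of_lt_of_le h e2
  · have hS' : bel (k := k) w ∉ S' := fun h => hS (hw h)
    cases w with
    | inr φ => exact absurd (hH.real _) hS
    | inl w =>
      have hu : Sum.inl (w.under (𝓞 k)) ∉ S := hS
      have hu' : Sum.inl (w.under (𝓞 k)) ∉ S' := hS'
      by_cases hpw : (p : 𝓞 K) ∈ w.asIdeal
      · obtain ⟨h1, h2⟩ := hp.spl K w hpw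
        exact hH.spl K w θ hPθ h1 h2
      · have hpv : (p : 𝓞 k) ∉ (w.under (𝓞 k)).asIdeal := fun h =>
          hpw (((hBEL k K w).2.1 p).2 h)
        have hgood := hH.good _ hu
        have hnrt := fun j => hNRT k (L j) K (P j) G' (e j) θ w (hGen j) (hH.fam.mon j)
          (hgood.each j).intP (hO j).mon ((hO j).int _ hu' hpv) hθ
        refine hH.pos K w θ hu (hnrt j0).1 hPθ fun e' he' hcl => ?_
        rw [eval₂_finset_prod, Finset.prod_eq_zero_iff] at he'
        obtain ⟨j, -, hj⟩ := he'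
        by_contra hns
        obtain ⟨w', g, hgc, hge, hgk, hun, hlt⟩ := (hnrt j).2 e' hj hcl
        have hD : g (ic w' (aeval (e j) D)) = eval₂ (kc k w) e' D := by
          rw [Pool.Agent.H69.N6E.g_aeval D (e j) w w' g hgk, hge]
        have hns' : ¬ IsSquare (ic w' (aeval (e j) D)) := by
          intro hsq
          apply hns
          rw [← hD]
          exact hsq.map g
        have hone := (hO j).unit w' (by rw [hun]; exact hu') (fun h => by
          have h1 := ((hBEL k (L j) w').2.1 p).1 h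
          rw [hun] at h1
          exact hpv h1) hns'
        rw [hone] at hlt
        exact lt_irrefl _ hlt

end Pool.Agent.H69.N6V
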